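import Pool.Agent.Helper88.SlabVolume

/-!
Module F8 of project FA (MP_66ebcc_gt): the value of `prob` in the direction `f₃`.
-/

set_option autoImplicit false

open MeasureTheory Set Real
open Pool.Agent.Helper88.Slab (prob ind A cube)

namespace Pool.Agent.Helper89.FA

open Pool.Agent.Helper88.Slab

private lemma f8_deriv (k : ℕ) (x : ℝ) :
    HasDerivAt (fun y : ℝ => (max 0 y) ^ (k + 2) / (k + 2)) ((max 0 x) ^ (k + 1)) x := by
  have hk : ((k : ℝ) + 2) ≠ 0 := by positivity
  have hpow : ∀ z : ℝ, HasDerivAt (fun y : ℝ => y ^ (k + 2) / (k + 2)) (z ^ (k + 1)) z := by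
    intro z
    have h := (hasDerivAt_pow (k + 2) z).div_const ((k : ℝ) + 2)
    have e : ((k + 2 : ℕ) : ℝ) * z ^ (k + 2 - 1) / ((k : ℝ) + 2) = z ^ (k + 1) := by
      push_cast
      rw [mul_div_assoc]
      field_simp
    rwa [e] at h
  rcases lt_trichotomy x 0 with hx | hx | hx
  · have e : (fun y : ℝ => (max 0 y) ^ (k + 2) / (k + 2)) =ᶠ[nhds x] fun _ => 0 := by
      filter_upwards [gt_mem_nhds hx] with y hy
      rw [max_eq_left hy.le]; simp
    rw [max_eq_left hx.le, zero_pow (by omega)]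
    exact (hasDerivAt_const x (0 : ℝ)).congr_of_eventuallyEq e
  · subst hx
    have h1 : HasDerivWithinAt (fun y : ℝ => (max 0 y) ^ (k + 2) / (k + 2)) ((max 0 (0:ℝ)) ^ (k + 1))
        (Iic 0) 0 := by
      refine (hasDerivWithinAt_const (0:ℝ) (Iic 0) (0:ℝ)).congr_of_eventuallyEq ?_ ?_ |>.congr_deriv ?_
      · filter_upwards [self_mem_nhdsWithin] with y hy
        rw [max_eq_left (mem_Iic.mp hy)]; simp
      · simp
      · simp
    have h2 : HasDerivWithinAt (fun y : ℝ => (max 0 y) ^ (k + 2) / (k + 2)) ((max 0 (0:ℝ)) ^ (k + 1))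
        (Ici 0) 0 := by
      refine (hpow 0).hasDerivWithinAt.congr_of_eventuallyEq ?_ ?_ |>.congr_deriv ?_
      · filter_upwards [self_mem_nhdsWithin] with y hy
        rw [max_eq_right (mem_Ici.mp hy)]
      · simp
      · simp
    have h3 := h1.union h2
    rw [Iic_union_Ici] at h3
    exact hasDerivWithinAt_univ.mp h3
  · have e : (fun y : ℝ => (max 0 y) ^ (k + 2) / (k + 2)) =ᶠ[nhds x] fun y => y ^ (k + 2) / (k + 2) := by
      filter_upwards [lt_mem_nhds hx] with y hy
      rw [max_eq_right hy.le]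
    rw [max_eq_right hx.le]
    exact (hpow x).congr_of_eventuallyEq e

private lemma f8_integral (k : ℕ) (c a b : ℝ) :
    ∫ z in a..b, (max 0 (z - c)) ^ (k + 1) =
      (max 0 (b - c)) ^ (k + 2) / (k + 2) - (max 0 (a - c)) ^ (k + 2) / (k + 2) := by
  have h : ∀ z ∈ uIcc a b, HasDerivAt (fun y : ℝ => (max 0 (y - c)) ^ (k + 2) / (k + 2))
      ((max 0 (z - c)) ^ (k + 1)) z := by
    intro z _
    have := (f8_deriv k (z - c)).comp z ((hasDerivAt_id z).sub_const c)
    rw [mul_one] at this
    exact this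
  exact intervalIntegral.integral_eq_sub_of_hasDerivAt h
    (Continuous.intervalIntegrable (by fun_prop) _ _)

/-- First average, `t ≥ s`, on `|z| ≤ t + s`. -/
private lemma f8_A1 {s t : ℝ} (hs : 0 < s) (hst : s ≤ t) {z : ℝ} (hz : |z| ≤ t + s) :
    A s (ind t) z = 1 - (max 0 (z - (t - s)) + max 0 (-z - (t - s))) / (2 * s) := by
  rw [A_ind hs (hs.le.trans hst), eq_sub_iff_add_eq, ← add_div, div_eq_one_iff_eq (by positivity)]
  obtain ⟨h1, h2⟩ := abs_le.mp hz
  unfold clamp
  rcases le_total z (t - s) with h | h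
  · rw [max_eq_left (by linarith : z - (t - s) ≤ 0)]
    rcases le_total (-z) (t - s) with h' | h'
    · rw [max_eq_left (by linarith : -z - (t - s) ≤ 0), min_eq_right (by linarith : z + s ≤ t),
        min_eq_right (by linarith : z - s ≤ t), max_eq_right (by linarith), max_eq_right (by linarith)]
      ring
    · rw [max_eq_right (by linarith : 0 ≤ -z - (t - s)), min_eq_right (by linarith : z + s ≤ t),
        min_eq_right (by linarith : z - s ≤ t), max_eq_right (by linarith), max_eq_left (by linarith)]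
      ring
  · rw [max_eq_right (by linarith : 0 ≤ z - (t - s)), max_eq_left (by linarith : -z - (t - s) ≤ 0),
      min_eq_left (by linarith : t ≤ z + s), min_eq_right (by linarith : z - s ≤ t),
      max_eq_right (by linarith), max_eq_right (by linarith)]
    ring

/-- Second average. -/
private lemma f8_A2 {s t : ℝ} (hs : 0 < s) (hst : s ≤ t) {y : ℝ} (hy : |y| ≤ s) :
    A s (A s (ind t)) y =
      1 - ((max 0 (y - (t - 2 * s))) ^ 2 + (max 0 (-y - (t - 2 * s))) ^ 2) / (8 * s ^ 2) := by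
  obtain ⟨h1, h2⟩ := abs_le.mp hy
  have hcont : Continuous (A s (ind t)) := A_ind_cont hs (hs.le.trans hst)
  have e1 : A s (A s (ind t)) y = (1 / (2 * s)) * ∫ z in (y - s)..(y + s), A s (ind t) z := by
    rw [A_eq_diff hs (fun _ _ => hcont.intervalIntegrable _ _),
      intervalIntegral.integral_interval_sub_left (hcont.intervalIntegrable _ _)
        (hcont.intervalIntegrable _ _)]
  have e2 : ∫ z in (y - s)..(y + s), A s (ind t) z =
      ∫ z in (y - s)..(y + s), (1 - ((max 0 (z - (t - s))) ^ (0 + 1) +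
        (max 0 (-z - (t - s))) ^ (0 + 1)) / (2 * s)) := by
    apply intervalIntegral.integral_congr
    intro z hz
    rw [uIcc_of_le (by linarith)] at hz
    simp only
    rw [f8_A1 hs hst (abs_le.mpr ⟨by linarith [hz.1], by linarith [hz.2]⟩)]
    simp
  have e3 : ∫ z in (y - s)..(y + s), (max 0 (-z - (t - s))) ^ (0 + 1) =
      ∫ z in (-y - s)..(-y + s), (max 0 (z - (t - s))) ^ (0 + 1) := by
    have := intervalIntegral.integral_comp_neg (a := y - s) (b := y + s)
      (f := fun z => (max 0 (z - (t - s))) ^ (0 + 1))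
    rw [this]
    congr 1 <;> ring
  have i1 : IntervalIntegrable (fun z : ℝ => (max 0 (z - (t - s))) ^ (0 + 1)) volume (y - s) (y + s) :=
    Continuous.intervalIntegrable (by fun_prop) _ _
  have i2 : IntervalIntegrable (fun z : ℝ => (max 0 (-z - (t - s))) ^ (0 + 1)) volume (y - s) (y + s) :=
    Continuous.intervalIntegrable (by fun_prop) _ _
  rw [e1, e2, intervalIntegral.integral_sub (by simp) ((i1.add i2).div_const _),
    intervalIntegral.integral_div, intervalIntegral.integral_add i1 i2, e3, f8_integral, f8_integral]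
  rw [max_eq_left (by linarith : y - s - (t - s) ≤ 0),
    max_eq_left (by linarith : -y - s - (t - s) ≤ 0),
    show y + s - (t - s) = y - (t - 2 * s) by ring,
    show -y + s - (t - s) = -y - (t - 2 * s) by ring]
  simp only [intervalIntegral.integral_const, smul_eq_mul]
  push_cast
  field_simp
  ring

/-- Third average at zero. -/
private lemma f8_A3 {s t : ℝ} (hs : 0 < s) (hst : s ≤ t) (ht : t ≤ 3 * s)
    (hc : Continuous (A s (A s (ind t)))) :
    A s (A s (A s (ind t))) 0 = 1 - (3 * s - t) ^ 3 / (24 * s ^ 3) := by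
  have e1 : A s (A s (A s (ind t))) 0 = (1 / (2 * s)) * ∫ z in (0 - s)..(0 + s), A s (A s (ind t)) z := by
    rw [A_eq_diff hs (fun _ _ => hc.intervalIntegrable _ _),
      intervalIntegral.integral_interval_sub_left (hc.intervalIntegrable _ _)
        (hc.intervalIntegrable _ _)]
  have e2 : ∫ z in (0 - s)..(0 + s), A s (A s (ind t)) z =
      ∫ z in (0 - s)..(0 + s), (1 - ((max 0 (z - (t - 2 * s))) ^ (1 + 1) +
        (max 0 (-z - (t - 2 * s))) ^ (1 + 1)) / (8 * s ^ 2)) := by
    apply intervalIntegral.integral_congr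
    intro z hz
    rw [uIcc_of_le (by linarith)] at hz
    simp only
    rw [f8_A2 hs hst (abs_le.mpr ⟨by linarith [hz.1], by linarith [hz.2]⟩)]
  have e3 : ∫ z in (0 - s)..(0 + s), (max 0 (-z - (t - 2 * s))) ^ (1 + 1) =
      ∫ z in (0 - s)..(0 + s), (max 0 (z - (t - 2 * s))) ^ (1 + 1) := by
    have := intervalIntegral.integral_comp_neg (a := 0 - s) (b := 0 + s)
      (f := fun z => (max 0 (z - (t - 2 * s))) ^ (1 + 1))
    rw [this]
    congr 1 <;> ring
  have i1 : IntervalIntegrable (fun z : ℝ => (max 0 (z - (t - 2 * s))) ^ (1 + 1)) volume (0 - s) (0 + s) :=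
    Continuous.intervalIntegrable (by fun_prop) _ _
  have i2 : IntervalIntegrable (fun z : ℝ => (max 0 (-z - (t - 2 * s))) ^ (1 + 1)) volume (0 - s) (0 + s) :=
    Continuous.intervalIntegrable (by fun_prop) _ _
  rw [e1, e2, intervalIntegral.integral_sub (by simp) ((i1.add i2).div_const _),
    intervalIntegral.integral_div, intervalIntegral.integral_add i1 i2, e3, f8_integral]
  rw [max_eq_left (by linarith : 0 - s - (t - 2 * s) ≤ 0),
    max_eq_right (by linarith : 0 ≤ 0 + s - (t - 2 * s))]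
  simp only [intervalIntegral.integral_const, smul_eq_mul]
  push_cast
  field_simp
  ring

/-- F8. The value of `prob` in the direction `f₃`. -/
theorem prob_f3 {n : ℕ} (hn : 3 ≤ n) {t : ℝ} (ht0 : 1 / √3 ≤ t) (ht : t ≤ √3) :
    prob (fun i : Fin n => if (i : ℕ) < 3 then 1 / √3 else 0) t =
      1 - (3 - √3 * t) ^ 3 / 24 := by
  obtain ⟨m, rfl⟩ : ∃ m, n = m + 3 := ⟨n - 3, by omega⟩
  obtain ⟨s, hs⟩ : ∃ s, s = 1 / √3 := ⟨_, rfl⟩
  have hq0 : 0 < √3 := by positivity
  have hq : √3 ^ 2 = 3 := Real.sq_sqrt (by norm_num)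
  have hs0 : 0 < s := by rw [hs]; positivity
  have hs2 : s ^ 2 = 1 / 3 := by rw [hs, div_pow, hq]; norm_num
  have hqs : √3 = 3 * s := by
    rw [hs]; field_simp; linarith
  rw [← hs] at ht0
  simp_rw [← hs]
  have ht0' : 0 ≤ t := hs0.le.trans ht0
  have hc1 : Continuous (A s (ind t)) := A_ind_cont hs0 ht0'
  have hc2 : Continuous (A s (A s (ind t))) := by
    have : A s (A s (ind t)) = fun y => (1/(2*s)) * ((∫ t_1 in (0:ℝ)..(y+s), A s (ind t) t_1) -
        ∫ t_1 in (0:ℝ)..(y-s), A s (ind t) t_1) := by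
      ext y
      exact A_eq_diff hs0 (fun _ _ => hc1.intervalIntegrable _ _) y
    rw [this]
    have hP : Continuous (fun x : ℝ => ∫ t_1 in (0:ℝ)..x, A s (ind t) t_1) :=
      intervalIntegral.continuous_primitive (fun _ _ => hc1.intervalIntegrable _ _) 0
    exact continuous_const.mul ((hP.comp (by fun_prop)).sub (hP.comp (by fun_prop)))
  have e0 : |(if ((0 : Fin (m + 2 + 1)) : ℕ) < 3 then s else 0)| = s := by simp [abs_of_pos hs0]
  have e1 : (if ((((0 : Fin (m+2+1)).succAbove (0 : Fin (m + 1 + 1)) : Fin (m + 2 + 1))) : ℕ) < 3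
      then s else 0) = s := by
    simp
  have e2 : (if ((((0 : Fin (m+2+1)).succAbove ((0 : Fin (m + 1 + 1)).succAbove (0 : Fin (m+1))) :
      Fin (m + 2 + 1))) : ℕ) < 3 then s else 0) = s := by
    simp only [Fin.zero_succAbove, Fin.val_succ]
    exact if_pos (by simp)
  have e3 : ∀ j : Fin m, (if ((((0 : Fin (m+2+1)).succAbove ((0 : Fin (m + 1 + 1)).succAbove
      ((0 : Fin (m+1)).succAbove j)) : Fin (m + 2 + 1))) : ℕ) < 3 then s else 0) = 0 := by
    intro j
    simp only [Fin.zero_succAbove, Fin.val_succ]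
    exact if_neg (by omega)
  rw [prob_split _ 0, e0, cube_split_cont 0 _ _ hc1, e1, cube_split_cont 0 _ _ hc2, e2]
  simp only [e3, zero_mul, Finset.sum_const_zero, integral_const, probReal_univ, one_smul]
  rw [f8_A3 hs0 ht0 (by rw [hqs] at ht; exact ht) hc2, hqs]
  have h3 : 3 - 3 * s * t = 3 * s * (3 * s - t) := by nlinarith
  have h6 : s ^ 6 = 1 / 27 := by
    calc s ^ 6 = (s ^ 2) ^ 3 := by ring
      _ = 1 / 27 := by rw [hs2]; norm_num
  rw [h3, sub_right_inj, div_eq_div_iff (by positivity) (by norm_num)]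
  calc (3 * s - t) ^ 3 * 24 = (3 * s - t) ^ 3 * 24 * (27 * (1 / 27)) := by ring
    _ = (3 * s - t) ^ 3 * 24 * (27 * s ^ 6) := by rw [h6]
    _ = (3 * s * (3 * s - t)) ^ 3 * (24 * s ^ 3) := by ring

end Pool.Agent.Helper89.FA
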